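import Mathlib
import Pool.Agent.H13R3.PH.B1

/-! Hadamard matrices modulo a prime: definitions and the combination lemma. -/

open Finset Matrix

namespace Pool.Agent.H627R5.Md

/-- a sign matrix with all products of distinct rows divisible by `l` -/
def MT (l : ℕ) (ι : Type) [Fintype ι] : Prop :=
  ∃ H : Matrix ι ι ℤ, (∀ i j, H i j = 1 ∨ H i j = -1) ∧ ∀ i j, i ≠ j → (l : ℤ) ∣ (H * Hᵀ) i j

/-- the same on `Fin n` -/
def MH (l n : ℕ) : Prop := MT l (Fin n)

lemma MT.congr {l : ℕ} {ι κ : Type} [Fintype ι] [Fintype κ] (e : ι ≃ κ) (h : MT l ι) :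
    MT l κ := by
  obtain ⟨H, h1, h2⟩ := h
  refine ⟨H.submatrix e.symm e.symm, fun i j => h1 _ _, fun i j hij => ?_⟩
  rw [Matrix.transpose_submatrix, Matrix.submatrix_mul_equiv]
  exact h2 _ _ (fun h => hij (e.symm.injective h))

lemma MT_of_MH {l n : ℕ} {ι : Type} [Fintype ι] (hn : Fintype.card ι = n) (h : MH l n) :
    MT l ι := by
  classical
  exact MT.congr (Fintype.equivFinOfCardEq hn).symm h

lemma MH_of_MT {l n : ℕ} {ι : Type} [Fintype ι] (hn : Fintype.card ι = n) (h : MT l ι) :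
    MH l n := by
  classical
  exact MT.congr (Fintype.equivFinOfCardEq hn) h

lemma MT.prod {l : ℕ} {ι κ : Type} [Fintype ι] [Fintype κ] (h : MT l ι) (h' : MT l κ) :
    MT l (ι × κ) := by
  classical
  obtain ⟨A, a1, a2⟩ := h
  obtain ⟨B, b1, b2⟩ := h'
  refine ⟨Matrix.of fun x y => A x.1 y.1 * B x.2 y.2, ?_, ?_⟩
  · intro i j
    simp only [Matrix.of_apply]
    rcases a1 i.1 j.1 with h | h <;> rcases b1 i.2 j.2 with h' | h' <;> rw [h, h'] <;> simp
  · intro i j hij
    have e : ((Matrix.of fun x y : ι × κ => A x.1 y.1 * B x.2 y.2) *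
        (Matrix.of fun x y : ι × κ => A x.1 y.1 * B x.2 y.2)ᵀ) i j =
        (A * Aᵀ) i.1 j.1 * (B * Bᵀ) i.2 j.2 := by
      rw [Matrix.mul_apply, Matrix.mul_apply, Matrix.mul_apply, Finset.sum_mul_sum,
        Fintype.sum_prod_type]
      simp only [Matrix.transpose_apply, Matrix.of_apply]
      exact sum_congr rfl fun _ _ => sum_congr rfl fun _ _ => by ring
    rw [e]
    by_cases h1 : i.1 = j.1
    · have h2 : i.2 ≠ j.2 := fun h2 => hij (Prod.ext h1 h2)
      exact Dvd.dvd.mul_left (b2 _ _ h2) _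
    · exact Dvd.dvd.mul_right (a2 _ _ h1) _

lemma MH.mul {l a b : ℕ} (h : MH l a) (h' : MH l b) : MH l (a * b) :=
  MH_of_MT (by simp) (MT.prod h h')

lemma MH_of_had {l n : ℕ} (h : Pool.Agent.H108R3.Had.HasHad n) : MH l n := by
  obtain ⟨H, h1, h2⟩ := h
  refine ⟨H, h1, fun i j hij => ?_⟩
  rw [h2]
  simp [hij]

lemma MH_one (l : ℕ) : MH l 1 :=
  ⟨Matrix.of fun _ _ => 1, fun _ _ => Or.inl rfl, fun i j hij => absurd (Subsingleton.elim i j) hij⟩

/-- the matrix `J` -/
lemma MH_zero {l n : ℕ} (h : l ∣ n) : MH l n := by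
  refine ⟨Matrix.of fun _ _ => 1, fun _ _ => Or.inl rfl, fun i j _ => ?_⟩
  rw [Matrix.mul_apply]
  simp only [Matrix.transpose_apply, Matrix.of_apply, mul_one, sum_const, card_univ,
    Fintype.card_fin, nsmul_eq_mul]
  exact_mod_cast h

lemma sum_half {k : ℕ} (x y x' y' : ℤ) (i i' : Fin k) :
    ∑ t : Fin k, (x + y * (if t = i then 1 else 0)) * (x' + y' * (if t = i' then 1 else 0)) =
      k * (x * x') + x' * y + x * y' + y * y' * (if i = i' then 1 else 0) := by
  have e : ∀ t : Fin k, (x + y * (if t = i then 1 else 0)) * (x' + y' * (if t = i' then 1 else 0)) =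
      x * x' + (if t = i then x' * y else 0) + (if t = i' then x * y' else 0) +
        (if t = i then (if i = i' then y * y' else 0) else 0) := by
    intro t
    by_cases h1 : t = i
    · subst h1
      by_cases h2 : t = i' <;> simp [h2] <;> ring
    · by_cases h2 : t = i'
      · subst h2
        simp only [if_neg h1, if_true]
        ring
      · simp only [if_neg h1, if_neg h2]
        ring
  rw [sum_congr rfl fun t _ => e t]
  rw [sum_add_distrib, sum_add_distrib, sum_add_distrib]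
  simp

/-- the matrix `J - 2 I` -/
lemma MH_four {l n : ℕ} (h : (l : ℤ) ∣ (n : ℤ) - 4) : MH l n := by
  refine ⟨Matrix.of fun i t => 1 + (-2) * (if t = i then 1 else 0), ?_, ?_⟩
  · intro i j
    simp only [Matrix.of_apply]
    split_ifs <;> simp
  · intro i j hij
    rw [Matrix.mul_apply]
    simp only [Matrix.transpose_apply, Matrix.of_apply]
    rw [sum_half, if_neg hij]
    have : (n : ℤ) * (1 * 1) + 1 * (-2) + 1 * (-2) + (-2) * (-2) * 0 = n - 4 := by ring
    rw [this]
    exact h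

/-! ### the special block -/

def fx : Bool → Bool → Bool → ℤ
  | false, _, false => 1
  | false, true, true => 1
  | false, false, true => -1
  | true, true, false => 1
  | true, true, true => -1
  | true, false, _ => -1

def fy : Bool → Bool → Bool → ℤ
  | false, true, false => -2
  | true, true, true => 2
  | _, _, _ => 0

def fi {k : ℕ} (o : Option (Fin (k + 1))) : Fin (k + 1) := o.getD 0

/-- the special block, two groups of `k + 2` rows of length `2 (k + 1)` -/
def FF {k : ℕ} (x : Bool × Option (Fin (k + 1))) (y : Bool × Fin (k + 1)) : ℤ :=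
  fx x.1 x.2.isSome y.1 + fy x.1 x.2.isSome y.1 * (if y.2 = fi x.2 then 1 else 0)

lemma FF_sign {k : ℕ} (x : Bool × Option (Fin (k + 1))) (y : Bool × Fin (k + 1)) :
    FF x y = 1 ∨ FF x y = -1 := by
  obtain ⟨c, o⟩ := x
  obtain ⟨hh, t⟩ := y
  unfold FF
  simp only
  by_cases ht : t = fi o
  · rw [if_pos ht]
    rcases o with _ | i <;> cases c <;> cases hh <;> simp [fx, fy]
  · rw [if_neg ht]
    rcases o with _ | i <;> cases c <;> cases hh <;> simp [fx, fy]

lemma FF_sum {k : ℕ} (x x' : Bool × Option (Fin (k + 1))) :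
    ∑ y, FF x y * FF x' y =
      ∑ hh : Bool, (((k + 1 : ℕ) : ℤ) * (fx x.1 x.2.isSome hh * fx x'.1 x'.2.isSome hh) +
        fx x'.1 x'.2.isSome hh * fy x.1 x.2.isSome hh +
        fx x.1 x.2.isSome hh * fy x'.1 x'.2.isSome hh +
        fy x.1 x.2.isSome hh * fy x'.1 x'.2.isSome hh * (if fi x.2 = fi x'.2 then 1 else 0)) := by
  rw [Fintype.sum_prod_type]
  refine sum_congr rfl fun hh _ => ?_
  have h := sum_half (fx x.1 x.2.isSome hh) (fy x.1 x.2.isSome hh) (fx x'.1 x'.2.isSome hh)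
    (fy x'.1 x'.2.isSome hh) (fi x.2) (fi x'.2)
  rw [← h]
  rfl

lemma FF_cross {k : ℕ} {x x' : Bool × Option (Fin (k + 1))} (h : x.1 ≠ x'.1) :
    (k : ℤ) ∣ ∑ y, FF x y * FF x' y := by
  rw [FF_sum, Fintype.sum_bool]
  obtain ⟨c, o⟩ := x
  obtain ⟨c', o'⟩ := x'
  simp only at h ⊢
  rcases o with _ | i <;> rcases o' with _ | i' <;> cases c <;> cases c' <;>
    simp [fx, fy] at h ⊢ <;> ring_nf <;> simp

lemma FF_same {k : ℕ} {x x' : Bool × Option (Fin (k + 1))} (h : x.1 = x'.1) (h2 : x ≠ x') :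
    (k : ℤ) ∣ (2 * ((k : ℤ) + 1)) + ∑ y, FF x y * FF x' y := by
  rw [FF_sum, Fintype.sum_bool]
  obtain ⟨c, o⟩ := x
  obtain ⟨c', o'⟩ := x'
  simp only at h
  subst h
  have h3 : o ≠ o' := fun h => h2 (by rw [h])
  simp only
  rcases o with _ | i <;> rcases o' with _ | i'
  · exact absurd rfl h3
  · cases c <;> simp [fx, fy] <;> ring_nf <;> simp
  · cases c <;> simp [fx, fy] <;> ring_nf <;> simp
  · have h4 : i ≠ i' := fun h => h3 (by rw [h])
    cases c <;> simp [fx, fy, fi, h4] <;> ring_nf <;> simp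

end Pool.Agent.H627R5.Md
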