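import Pool.Agent.H627R5.Mod

/-! The combination lemma for Hadamard matrices modulo `l`. -/

open Finset Matrix

namespace Pool.Agent.H627R5.Md

abbrev Tau (k : ℕ) : Type := Bool × Fin (k + 1)
abbrev RA (g h k : ℕ) : Type := (Fin h × Tau k) ⊕ (Fin g × Bool)
abbrev RB (g h : ℕ) : Type := Fin g ⊕ Fin h
abbrev RR (g h k : ℕ) : Type := (Fin h × Tau k × Bool) ⊕ (Fin g × Bool × Option (Fin (k + 1)))

variable {g h k l : ℕ}

def ra : RR g h k → RA g h k
  | Sum.inl x => Sum.inl (x.1, x.2.1)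
  | Sum.inr x => Sum.inr (x.1, x.2.1)

def rb : RR g h k → RB g h
  | Sum.inl x => Sum.inr x.1
  | Sum.inr x => Sum.inl x.1

def rv (S : Matrix (Tau k) (Tau k) ℤ) : RR g h k → Tau k → ℤ
  | Sum.inl x => fun t => (if x.2.2 then 1 else -1) * S x.2.1 t
  | Sum.inr x => fun t => FF x.2 t

def CM (A : Matrix (RA g h k) (RA g h k) ℤ) (B : Matrix (RB g h) (RB g h) ℤ)
    (S : Matrix (Tau k) (Tau k) ℤ) : Matrix (RR g h k) (RA g h k ⊕ (Tau k × RB g h)) ℤ :=
  Matrix.of fun x y => Sum.elim (fun y => A (ra x) y) (fun y => rv S x y.1 * B (rb x) y.2) y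

lemma diag_sign {ι κ : Type} [Fintype κ] {H : Matrix ι κ ℤ}
    (h1 : ∀ i j, H i j = 1 ∨ H i j = -1) (i : ι) : (H * Hᵀ) i i = Fintype.card κ := by
  rw [Matrix.mul_apply]
  have : ∀ j : κ, H i j * Hᵀ j i = 1 := by
    intro j
    rw [Matrix.transpose_apply]
    rcases h1 i j with h | h <;> rw [h] <;> norm_num
  rw [sum_congr rfl fun j _ => this j]
  simp

lemma gramC (A : Matrix (RA g h k) (RA g h k) ℤ) (B : Matrix (RB g h) (RB g h) ℤ)
    (S : Matrix (Tau k) (Tau k) ℤ) (x x' : RR g h k) :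
    (CM A B S * (CM A B S)ᵀ) x x' = (A * Aᵀ) (ra x) (ra x') +
      (∑ t, rv S x t * rv S x' t) * (B * Bᵀ) (rb x) (rb x') := by
  rw [Matrix.mul_apply, Fintype.sum_sum_type]
  congr 1
  rw [Matrix.mul_apply, Finset.sum_mul_sum, Fintype.sum_prod_type]
  refine sum_congr rfl fun t _ => sum_congr rfl fun y _ => ?_
  simp only [CM, Matrix.transpose_apply, Matrix.of_apply, Sum.elim_inr]
  ring

theorem combT (hk : (l : ℤ) ∣ k) {A : Matrix (RA g h k) (RA g h k) ℤ}
    {B : Matrix (RB g h) (RB g h) ℤ} {S : Matrix (Tau k) (Tau k) ℤ}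
    (hA1 : ∀ i j, A i j = 1 ∨ A i j = -1) (hB1 : ∀ i j, B i j = 1 ∨ B i j = -1)
    (hS1 : ∀ i j, S i j = 1 ∨ S i j = -1)
    (hA : ∀ i j, i ≠ j → (l : ℤ) ∣ (A * Aᵀ) i j) (hB : ∀ i j, i ≠ j → (l : ℤ) ∣ (B * Bᵀ) i j)
    (hS : ∀ i j, i ≠ j → (l : ℤ) ∣ (S * Sᵀ) i j) {x x' : RR g h k} (hxx : x ≠ x') :
    (l : ℤ) ∣ (CM A B S * (CM A B S)ᵀ) x x' := by
  have cA : (Fintype.card (RA g h k) : ℤ) = 2 * ((k : ℤ) + 1) * h + 2 * g := by
    simp [RA, Tau]; ring
  have cB : (Fintype.card (RB g h) : ℤ) = g + h := by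
    simp [RB]
  have cT : (Fintype.card (Tau k) : ℤ) = 2 * ((k : ℤ) + 1) := by
    simp [Tau]
  rw [gramC]
  rcases x with ⟨r, t, s⟩ | ⟨r, c, o⟩ <;> rcases x' with ⟨r', t', s'⟩ | ⟨r', c', o'⟩
  · -- ordinary, ordinary
    have hsum : ∑ u, rv S (Sum.inl (r, t, s) : RR g h k) u * rv S (Sum.inl (r', t', s') : RR g h k) u =
        ((if s then 1 else -1) * (if s' then 1 else -1)) * (S * Sᵀ) t t' := by
      rw [Matrix.mul_apply, Finset.mul_sum]
      refine sum_congr rfl fun u _ => ?_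
      simp only [rv, Matrix.transpose_apply]
      ring
    rw [hsum]
    by_cases hr : r = r'
    · subst hr
      by_cases ht : t = t'
      · subst ht
        have hs : s ≠ s' := fun h => hxx (by rw [h])
        have e1 : (A * Aᵀ) (ra (Sum.inl (r, t, s) : RR g h k)) (ra (Sum.inl (r, t, s') : RR g h k)) =
            2 * ((k : ℤ) + 1) * h + 2 * g := by
          rw [← cA]; exact diag_sign hA1 _
        have e2 : (B * Bᵀ) (rb (Sum.inl (r, t, s) : RR g h k)) (rb (Sum.inl (r, t, s') : RR g h k)) =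
            g + h := by
          rw [← cB]; exact diag_sign hB1 _
        have e3 : (S * Sᵀ) t t = 2 * ((k : ℤ) + 1) := by
          rw [← cT]; exact diag_sign hS1 _
        rw [e1, e2, e3]
        have e4 : ((if s then (1 : ℤ) else -1) * (if s' then (1 : ℤ) else -1)) = -1 := by
          cases s <;> cases s' <;> simp_all
        rw [e4]
        have e5 : 2 * ((k : ℤ) + 1) * h + 2 * g + -1 * (2 * ((k : ℤ) + 1)) * (g + h) =
            (k : ℤ) * (-2 * g) := by ring
        rw [e5]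
        exact Dvd.dvd.mul_right hk _
      · refine dvd_add (hA _ _ ?_) ?_
        · simp [ra, ht]
        · exact Dvd.dvd.mul_right (Dvd.dvd.mul_left (hS _ _ ht) _) _
    · refine dvd_add (hA _ _ ?_) (Dvd.dvd.mul_left (hB _ _ ?_) _)
      · simp [ra, hr]
      · simp [rb, hr]
  · refine dvd_add (hA _ _ ?_) (Dvd.dvd.mul_left (hB _ _ ?_) _)
    · simp [ra]
    · simp [rb]
  · refine dvd_add (hA _ _ ?_) (Dvd.dvd.mul_left (hB _ _ ?_) _)
    · simp [ra]
    · simp [rb]
  · -- special, special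
    have hsum : ∑ u, rv S (Sum.inr (r, c, o) : RR g h k) u * rv S (Sum.inr (r', c', o') : RR g h k) u =
        ∑ u, FF (c, o) u * FF (c', o') u := rfl
    rw [hsum]
    by_cases hr : r = r'
    · subst hr
      by_cases hc : c = c'
      · subst hc
        have ho : ((c, o) : Bool × Option (Fin (k + 1))) ≠ (c, o') := by
          intro h
          apply hxx
          rw [Prod.mk.injEq] at h
          rw [h.2]
        obtain ⟨z, hz⟩ := FF_same (x := (c, o)) (x' := (c, o')) rfl ho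
        have e1 : (A * Aᵀ) (ra (Sum.inr (r, c, o) : RR g h k)) (ra (Sum.inr (r, c, o') : RR g h k)) =
            2 * ((k : ℤ) + 1) * h + 2 * g := by
          rw [← cA]; exact diag_sign hA1 _
        have e2 : (B * Bᵀ) (rb (Sum.inr (r, c, o) : RR g h k)) (rb (Sum.inr (r, c, o') : RR g h k)) =
            g + h := by
          rw [← cB]; exact diag_sign hB1 _
        rw [e1, e2]
        have e3 : ∑ y, FF (c, o) y * FF (c, o') y = (k : ℤ) * z - 2 * ((k : ℤ) + 1) := by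
          linarith
        rw [e3]
        have e5 : 2 * ((k : ℤ) + 1) * h + 2 * g + ((k : ℤ) * z - 2 * ((k : ℤ) + 1)) * (g + h) =
            (k : ℤ) * (z * (g + h) - 2 * g) := by ring
        rw [e5]
        exact Dvd.dvd.mul_right hk _
      · refine dvd_add (hA _ _ ?_) (Dvd.dvd.mul_right (hk.trans (FF_cross hc)) _)
        simp [ra, hc]
    · refine dvd_add (hA _ _ ?_) (Dvd.dvd.mul_left (hB _ _ ?_) _)
      · simp [ra, hr]
      · simp [rb, hr]

lemma CM_sign {A : Matrix (RA g h k) (RA g h k) ℤ}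
    {B : Matrix (RB g h) (RB g h) ℤ} {S : Matrix (Tau k) (Tau k) ℤ}
    (hA1 : ∀ i j, A i j = 1 ∨ A i j = -1) (hB1 : ∀ i j, B i j = 1 ∨ B i j = -1)
    (hS1 : ∀ i j, S i j = 1 ∨ S i j = -1) (x : RR g h k) (y : RA g h k ⊕ (Tau k × RB g h)) :
    CM A B S x y = 1 ∨ CM A B S x y = -1 := by
  rcases y with y | y
  · exact hA1 _ _
  · simp only [CM, Matrix.of_apply, Sum.elim_inr]
    have hv : rv S x y.1 = 1 ∨ rv S x y.1 = -1 := by
      rcases x with ⟨r, t, s⟩ | ⟨r, c, o⟩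
      · simp only [rv]
        rcases hS1 t y.1 with h | h <;> cases s <;> simp [h]
      · exact FF_sign _ _
    rcases hv with h | h <;> rcases hB1 (rb x) y.2 with h' | h' <;> rw [h, h'] <;> simp

/-- the combination lemma -/
theorem comb (hk : l ∣ k) (hA : MH l (2 * (k + 1) * h + 2 * g)) (hB : MH l (g + h))
    (hS : MH l (2 * (k + 1))) :
    MH l ((2 * (k + 1) * h + 2 * g) + 2 * (k + 1) * (g + h)) := by
  classical
  have hk' : (l : ℤ) ∣ k := by exact_mod_cast hk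
  obtain ⟨A, a1, a2⟩ := MT_of_MH (ι := RA g h k) (by simp [RA, Tau]; ring) hA
  obtain ⟨B, b1, b2⟩ := MT_of_MH (ι := RB g h) (by simp [RB]) hB
  obtain ⟨S, s1, s2⟩ := MT_of_MH (ι := Tau k) (by simp [Tau]) hS
  have c1 : Fintype.card (RR g h k) = (2 * (k + 1) * h + 2 * g) + 2 * (k + 1) * (g + h) := by
    simp [RR, Tau]; ring
  have c2 : Fintype.card (RA g h k ⊕ (Tau k × RB g h)) =
      (2 * (k + 1) * h + 2 * g) + 2 * (k + 1) * (g + h) := by
    simp [RA, RB, Tau]; ring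
  let e := Fintype.equivFinOfCardEq c1
  let f := Fintype.equivFinOfCardEq c2
  refine ⟨(CM A B S).submatrix e.symm f.symm, fun i j => CM_sign a1 b1 s1 _ _, fun i j hij => ?_⟩
  rw [Matrix.transpose_submatrix, Matrix.submatrix_mul_equiv]
  exact combT hk' a1 b1 s1 a2 b2 s2 (fun h => hij (e.symm.injective h))

end Pool.Agent.H627R5.Md
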