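import Pool.Agent.H627R5.ModC

/-! The combination lemma modulo `4 l`. -/

open Finset Matrix

namespace Pool.Agent.H627R5.Md

variable {g h k l : ℕ}

lemma even_sum {κ : Type} [Fintype κ] (hκ : Even (Fintype.card κ)) {u v : κ → ℤ}
    (hu : ∀ t, u t = 1 ∨ u t = -1) (hv : ∀ t, v t = 1 ∨ v t = -1) : (2 : ℤ) ∣ ∑ t, u t * v t := by
  have h1 : ∀ t, (2 : ℤ) ∣ u t * v t - 1 := by
    intro t
    rcases hu t with h | h <;> rcases hv t with h' | h' <;> rw [h, h'] <;> norm_num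
  have h2 : (2 : ℤ) ∣ ∑ t, (u t * v t - 1) := Finset.dvd_sum fun t _ => h1 t
  rw [sum_sub_distrib] at h2
  simp only [sum_const, card_univ, nsmul_eq_mul, mul_one] at h2
  obtain ⟨c, hc⟩ := hκ
  have h3 : (2 : ℤ) ∣ (Fintype.card κ : ℤ) := ⟨c, by rw [hc]; push_cast; ring⟩
  exact (dvd_sub_left h3).mp h2

lemma two_mul_dvd {l : ℕ} (hl : Odd l) {x : ℤ} (h1 : (l : ℤ) ∣ x) (h2 : (2 : ℤ) ∣ x) :
    (2 * (l : ℤ)) ∣ x := by
  refine IsCoprime.mul_dvd ?_ h2 h1
  have := Nat.isCoprime_iff_coprime.mpr ((Nat.coprime_two_left).mpr hl)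
  exact_mod_cast this

lemma four_mul_dvd {l : ℕ} (hl : Odd l) {x : ℤ} (h1 : (l : ℤ) ∣ x) (h2 : (4 : ℤ) ∣ x) :
    (4 * (l : ℤ)) ∣ x := by
  refine IsCoprime.mul_dvd ?_ h2 h1
  have h3 : Nat.Coprime 4 l := Nat.Coprime.pow_left 2 ((Nat.coprime_two_left).mpr hl)
  have := Nat.isCoprime_iff_coprime.mpr h3
  exact_mod_cast this

lemma FF_cross2 {k : ℕ} {x x' : Bool × Option (Fin (k + 1))} (h : x.1 ≠ x'.1) :
    (2 * (k : ℤ)) ∣ ∑ y, FF x y * FF x' y := by
  rw [FF_sum, Fintype.sum_bool]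
  obtain ⟨c, o⟩ := x
  obtain ⟨c', o'⟩ := x'
  simp only at h ⊢
  have hz : ∀ z : ℤ, (∃ w : ℤ, z = 2 * k * w) → 2 * (k : ℤ) ∣ z := fun z ⟨w, hw⟩ => ⟨w, hw⟩
  rcases o with _ | i <;> rcases o' with _ | i' <;> cases c <;> cases c' <;>
    simp [fx, fy] at h ⊢ <;>
    first
      | exact hz _ ⟨0, by ring1⟩
      | exact hz _ ⟨1, by ring1⟩
      | exact hz _ ⟨-1, by ring1⟩

lemma FF_same2 {k : ℕ} {x x' : Bool × Option (Fin (k + 1))} (h : x.1 = x'.1) (h2 : x ≠ x') :
    (2 * (k : ℤ)) ∣ (2 * ((k : ℤ) + 1)) + ∑ y, FF x y * FF x' y := by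
  rw [FF_sum, Fintype.sum_bool]
  obtain ⟨c, o⟩ := x
  obtain ⟨c', o'⟩ := x'
  simp only at h
  subst h
  have h3 : o ≠ o' := fun h => h2 (by rw [h])
  have hz : ∀ z : ℤ, (∃ w : ℤ, z = 2 * k * w) → 2 * (k : ℤ) ∣ z := fun z ⟨w, hw⟩ => ⟨w, hw⟩
  simp only
  rcases o with _ | i <;> rcases o' with _ | i'
  · exact absurd rfl h3
  · cases c <;> simp [fx, fy] <;>
    first
      | exact hz _ ⟨1, by ring1⟩
      | exact hz _ ⟨2, by ring1⟩
  · cases c <;> simp [fx, fy] <;>
    first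
      | exact hz _ ⟨1, by ring1⟩
      | exact hz _ ⟨2, by ring1⟩
  · have h4 : i ≠ i' := fun h => h3 (by rw [h])
    cases c <;> simp [fx, fy, fi, h4] <;>
    first
      | exact hz _ ⟨1, by ring1⟩
      | exact hz _ ⟨2, by ring1⟩

theorem combT4 (hl : Odd l) (hk : (l : ℤ) ∣ k) (hg : Even g) (hgh : Even (g + h))
    {A : Matrix (RA g h k) (RA g h k) ℤ}
    {B : Matrix (RB g h) (RB g h) ℤ} {S : Matrix (Tau k) (Tau k) ℤ}
    (hA1 : ∀ i j, A i j = 1 ∨ A i j = -1) (hB1 : ∀ i j, B i j = 1 ∨ B i j = -1)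
    (hS1 : ∀ i j, S i j = 1 ∨ S i j = -1)
    (hrv : ∀ (x : RR g h k) t, rv S x t = 1 ∨ rv S x t = -1)
    (hA : ∀ i j, i ≠ j → (4 * (l : ℤ)) ∣ (A * Aᵀ) i j)
    (hB : ∀ i j, i ≠ j → (l : ℤ) ∣ (B * Bᵀ) i j)
    (hS : ∀ i j, i ≠ j → (l : ℤ) ∣ (S * Sᵀ) i j) {x x' : RR g h k} (hxx : x ≠ x') :
    (4 * (l : ℤ)) ∣ (CM A B S * (CM A B S)ᵀ) x x' := by
  have cA : (Fintype.card (RA g h k) : ℤ) = 2 * ((k : ℤ) + 1) * h + 2 * g := by
    simp [RA, Tau]; ring
  have cB : (Fintype.card (RB g h) : ℤ) = g + h := by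
    simp [RB]
  have cT : (Fintype.card (Tau k) : ℤ) = 2 * ((k : ℤ) + 1) := by
    simp [Tau]
  have eT : Even (Fintype.card (Tau k)) := ⟨k + 1, by simp [Tau]; ring⟩
  have eB : Even (Fintype.card (RB g h)) := by simpa [RB] using hgh
  obtain ⟨g2, hg2⟩ := hg
  obtain ⟨b2, hb2⟩ := hgh
  have hg2' : (g : ℤ) = 2 * g2 := by rw [hg2]; push_cast; ring
  have hb2' : (g : ℤ) + h = 2 * b2 := by
    have : ((g + h : ℕ) : ℤ) = b2 + b2 := by rw [hb2]; push_cast; ring
    push_cast at this; linarith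
  -- the two-part for different rows of `B`
  have key : ∀ x x' : RR g h k, rb x ≠ rb x' →
      (4 * (l : ℤ)) ∣ (∑ t, rv S x t * rv S x' t) * (B * Bᵀ) (rb x) (rb x') := by
    intro x x' hne
    have h1 := even_sum eT (hrv x) (hrv x')
    have h2 : (2 : ℤ) ∣ (B * Bᵀ) (rb x) (rb x') := by
      rw [Matrix.mul_apply]
      exact even_sum eB (fun t => hB1 _ _) (fun t => hB1 _ _)
    have h3 := two_mul_dvd hl (hB _ _ hne) h2
    have h4 := mul_dvd_mul h1 h3
    have e : (2 : ℤ) * (2 * l) = 4 * l := by ring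
    rwa [e] at h4
  rw [gramC]
  rcases x with ⟨r, t, s⟩ | ⟨r, c, o⟩ <;> rcases x' with ⟨r', t', s'⟩ | ⟨r', c', o'⟩
  · -- ordinary, ordinary
    by_cases hr : r = r'
    · subst hr
      have hsum : ∑ u, rv S (Sum.inl (r, t, s) : RR g h k) u *
          rv S (Sum.inl (r, t', s') : RR g h k) u =
          ((if s then 1 else -1) * (if s' then 1 else -1)) * (S * Sᵀ) t t' := by
        rw [Matrix.mul_apply, Finset.mul_sum]
        refine sum_congr rfl fun u _ => ?_
        simp only [rv, Matrix.transpose_apply]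
        ring
      rw [hsum]
      have e2 : (B * Bᵀ) (rb (Sum.inl (r, t, s) : RR g h k)) (rb (Sum.inl (r, t', s') : RR g h k)) =
          g + h := by
        rw [← cB]; exact diag_sign hB1 _
      by_cases ht : t = t'
      · subst ht
        have hs : s ≠ s' := fun h => hxx (by rw [h])
        have e1 : (A * Aᵀ) (ra (Sum.inl (r, t, s) : RR g h k)) (ra (Sum.inl (r, t, s') : RR g h k)) =
            2 * ((k : ℤ) + 1) * h + 2 * g := by
          rw [← cA]; exact diag_sign hA1 _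
        have e3 : (S * Sᵀ) t t = 2 * ((k : ℤ) + 1) := by
          rw [← cT]; exact diag_sign hS1 _
        rw [e1, e2, e3]
        have e4 : ((if s then (1 : ℤ) else -1) * (if s' then (1 : ℤ) else -1)) = -1 := by
          cases s <;> cases s' <;> simp_all
        rw [e4]
        have e5 : 2 * ((k : ℤ) + 1) * h + 2 * g + -1 * (2 * ((k : ℤ) + 1)) * (g + h) =
            (4 * (k : ℤ)) * (- g2) := by
          have : 2 * ((k : ℤ) + 1) * h + 2 * g + -1 * (2 * ((k : ℤ) + 1)) * (g + h) =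
            (k : ℤ) * (-2 * g) := by ring
          rw [this, hg2']; ring
        rw [e5]
        exact Dvd.dvd.mul_right (mul_dvd_mul_left 4 hk) _
      · refine dvd_add (hA _ _ ?_) ?_
        · simp [ra, ht]
        · rw [e2, hb2']
          have h2 : (2 : ℤ) ∣ (S * Sᵀ) t t' := by
            rw [Matrix.mul_apply]
            exact even_sum eT (fun t => hS1 _ _) (fun t => hS1 _ _)
          obtain ⟨z, hz⟩ := two_mul_dvd hl (hS _ _ ht) h2
          rw [hz]
          exact ⟨((if s then 1 else -1) * (if s' then 1 else -1)) * z * b2, by ring⟩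
    · refine dvd_add (hA _ _ ?_) (key _ _ ?_)
      · simp [ra, hr]
      · simp [rb, hr]
  · refine dvd_add (hA _ _ ?_) (key _ _ ?_)
    · simp [ra]
    · simp [rb]
  · refine dvd_add (hA _ _ ?_) (key _ _ ?_)
    · simp [ra]
    · simp [rb]
  · -- special, special
    by_cases hr : r = r'
    · subst hr
      have hsum : ∑ u, rv S (Sum.inr (r, c, o) : RR g h k) u *
          rv S (Sum.inr (r, c', o') : RR g h k) u = ∑ u, FF (c, o) u * FF (c', o') u := rfl
      rw [hsum]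
      have e2 : (B * Bᵀ) (rb (Sum.inr (r, c, o) : RR g h k)) (rb (Sum.inr (r, c', o') : RR g h k)) =
          g + h := by
        rw [← cB]; exact diag_sign hB1 _
      rw [e2]
      by_cases hc : c = c'
      · subst hc
        have ho : ((c, o) : Bool × Option (Fin (k + 1))) ≠ (c, o') := by
          intro h
          apply hxx
          rw [Prod.mk.injEq] at h
          rw [h.2]
        obtain ⟨z, hz⟩ := FF_same2 (x := (c, o)) (x' := (c, o')) rfl ho
        have e1 : (A * Aᵀ) (ra (Sum.inr (r, c, o) : RR g h k)) (ra (Sum.inr (r, c, o') : RR g h k)) =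
            2 * ((k : ℤ) + 1) * h + 2 * g := by
          rw [← cA]; exact diag_sign hA1 _
        rw [e1]
        have e3 : ∑ y, FF (c, o) y * FF (c, o') y = (2 * (k : ℤ)) * z - 2 * ((k : ℤ) + 1) := by
          linarith
        rw [e3]
        have e5 : 2 * ((k : ℤ) + 1) * h + 2 * g + ((2 * (k : ℤ)) * z - 2 * ((k : ℤ) + 1)) * (g + h) =
            (4 * (k : ℤ)) * (z * b2 - g2) := by
          have : 2 * ((k : ℤ) + 1) * h + 2 * g +
              ((2 * (k : ℤ)) * z - 2 * ((k : ℤ) + 1)) * (g + h) =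
              2 * (k : ℤ) * z * (g + h) - 2 * k * g := by ring
          rw [this, hb2', hg2']; ring
        rw [e5]
        exact Dvd.dvd.mul_right (mul_dvd_mul_left 4 hk) _
      · refine dvd_add (hA _ _ ?_) ?_
        · simp [ra, hc]
        · obtain ⟨z, hz⟩ := FF_cross2 (x := (c, o)) (x' := (c', o')) hc
          rw [hz, hb2']
          obtain ⟨w, hw⟩ := hk
          exact ⟨w * z * b2, by rw [hw]; ring⟩
    · refine dvd_add (hA _ _ ?_) (key _ _ ?_)
      · simp [ra, hr]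
      · simp [rb, hr]

/-- the combination lemma modulo `4 l` -/
theorem comb4 (hl : Odd l) (hk : l ∣ k) (hg : Even g) (hgh : Even (g + h))
    (hA : MH (4 * l) (2 * (k + 1) * h + 2 * g)) (hB : MH l (g + h)) (hS : MH l (2 * (k + 1))) :
    MH (4 * l) ((2 * (k + 1) * h + 2 * g) + 2 * (k + 1) * (g + h)) := by
  classical
  have hk' : (l : ℤ) ∣ k := by exact_mod_cast hk
  obtain ⟨A, a1, a2⟩ := MT_of_MH (ι := RA g h k) (by simp [RA, Tau]; ring) hA
  obtain ⟨B, b1, b2⟩ := MT_of_MH (ι := RB g h) (by simp [RB]) hB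
  obtain ⟨S, s1, s2⟩ := MT_of_MH (ι := Tau k) (by simp [Tau]) hS
  have c1 : Fintype.card (RR g h k) = (2 * (k + 1) * h + 2 * g) + 2 * (k + 1) * (g + h) := by
    simp [RR, Tau]; ring
  have c2 : Fintype.card (RA g h k ⊕ (Tau k × RB g h)) =
      (2 * (k + 1) * h + 2 * g) + 2 * (k + 1) * (g + h) := by
    simp [RA, RB, Tau]; ring
  let e := Fintype.equivFinOfCardEq c1
  let f := Fintype.equivFinOfCardEq c2
  have hrv : ∀ (x : RR g h k) t, rv S x t = 1 ∨ rv S x t = -1 := by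
    intro x t
    rcases x with ⟨r, t', s⟩ | ⟨r, c, o⟩
    · simp only [rv]
      rcases s1 t' t with h | h <;> cases s <;> simp [h]
    · exact FF_sign _ _
  refine ⟨(CM A B S).submatrix e.symm f.symm, fun i j => CM_sign a1 b1 s1 _ _, fun i j hij => ?_⟩
  rw [Matrix.transpose_submatrix, Matrix.submatrix_mul_equiv]
  have a2' : ∀ i j, i ≠ j → (4 * (l : ℤ)) ∣ (A * Aᵀ) i j := by
    intro i j hij
    have := a2 i j hij
    push_cast at this
    exact this
  have := combT4 hl hk' hg hgh a1 b1 s1 hrv a2' b2 s2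
    (x := e.symm i) (x' := e.symm j) (fun h => hij (e.symm.injective h))
  push_cast
  exact this

/-- Hadamard matrix tensor modular matrix -/
lemma had_mul {κ a : ℕ} (h4 : 4 ∣ κ) (h : Pool.Agent.H108R3.Had.HasHad κ) (h' : MH l a) :
    MH (4 * l) (κ * a) := by
  classical
  obtain ⟨A, a1, a2⟩ := h
  obtain ⟨B, b1, b2⟩ := h'
  refine MH_of_MT (ι := Fin κ × Fin a) (by simp)
    ⟨Matrix.of fun x y => A x.1 y.1 * B x.2 y.2, ?_, ?_⟩
  · intro i j
    simp only [Matrix.of_apply]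
    rcases a1 i.1 j.1 with h | h <;> rcases b1 i.2 j.2 with h' | h' <;> rw [h, h'] <;> simp
  · intro i j hij
    have e : ((Matrix.of fun x y : Fin κ × Fin a => A x.1 y.1 * B x.2 y.2) *
        (Matrix.of fun x y : Fin κ × Fin a => A x.1 y.1 * B x.2 y.2)ᵀ) i j =
        (A * Aᵀ) i.1 j.1 * (B * Bᵀ) i.2 j.2 := by
      rw [Matrix.mul_apply, Matrix.mul_apply, Matrix.mul_apply, Finset.sum_mul_sum,
        Fintype.sum_prod_type]
      simp only [Matrix.transpose_apply, Matrix.of_apply]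
      exact sum_congr rfl fun _ _ => sum_congr rfl fun _ _ => by ring
    rw [e, a2]
    by_cases h1 : i.1 = j.1
    · have h2 : i.2 ≠ j.2 := fun h2 => hij (Prod.ext h1 h2)
      simp only [h1, Matrix.smul_apply, Matrix.one_apply_eq, smul_eq_mul, mul_one]
      push_cast
      refine mul_dvd_mul ?_ (b2 _ _ h2)
      exact_mod_cast h4
    · simp [Matrix.one_apply, h1]

end Pool.Agent.H627R5.Md
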