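import Pool.Agent.H627R5.ModNT
import Pool.Agent.H627R5.ModD

/-! Hadamard matrices modulo four times an odd prime: all large orders divisible by four. -/

open Finset Matrix

namespace Pool.Agent.H627R5.Md

/-- Paley seeds -/
lemma seed4 {l W : ℕ} (hl : l.Prime) (hl2 : l ≠ 2) (hW : Odd W) (hlW : ¬ l ∣ W) (c : ℕ)
    (hc1 : ¬ (l : ℤ) ∣ (c : ℤ) - 1) :
    ∃ κ₀ : ℕ, Odd κ₀ ∧ Pool.Agent.H108R3.Had.HasHad (4 * κ₀) ∧ Nat.Coprime κ₀ W ∧ (l : ℤ) ∣ ((4 * κ₀ : ℕ) : ℤ) - c := by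
  have hlodd : Odd l := hl.odd_of_ne_two hl2
  have hl0 : 0 < l := hl.pos
  have co1 : Nat.Coprime l W := (Nat.Prime.coprime_iff_not_dvd hl).mpr hlW
  have hc8 : Nat.Coprime 8 (l * W) := by
    have : Nat.Coprime 2 (l * W) := (Nat.coprime_two_left).mpr (hlodd.mul hW)
    exact Nat.Coprime.pow_left 3 this
  obtain ⟨x, hx1, hx2⟩ := Nat.chineseRemainder co1 (c + (l - 1)) 1
  obtain ⟨y, hy1, hy2⟩ := Nat.chineseRemainder hc8 3 x
  have hyl : y ≡ c + (l - 1) [MOD l] := (hy2.of_mul_right W).trans hx1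
  have hyW : y ≡ 1 [MOD W] := (hy2.of_mul_left l).trans hx2
  have hW0 : W ≠ 0 := by rintro rfl; simp at hW
  have hq0 : 8 * (l * W) ≠ 0 := by positivity
  have : NeZero (8 * (l * W)) := ⟨hq0⟩
  have hcop : Nat.Coprime y (8 * (l * W)) := by
    refine Nat.Coprime.mul_right ?_ (Nat.Coprime.mul_right ?_ ?_)
    · have := hy1.gcd_eq
      rw [Nat.Coprime, this]
      norm_num
    · have h1 := hyl.gcd_eq
      rw [Nat.Coprime, h1]
      rw [← Nat.Coprime, Nat.coprime_comm, Nat.Prime.coprime_iff_not_dvd hl]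
      intro h2
      apply hc1
      have h3 : (l : ℤ) ∣ ((c + (l - 1) : ℕ) : ℤ) := by exact_mod_cast h2
      have h4 : ((c + (l - 1) : ℕ) : ℤ) = (c : ℤ) - 1 + l := by
        push_cast [Nat.cast_sub hl0]; ring
      rw [h4] at h3
      exact (dvd_add_left (dvd_refl _)).mp h3
    · have := hyW.gcd_eq
      rw [Nat.Coprime, this]
      simp
  obtain ⟨p, -, hp, hpy⟩ := Nat.forall_exists_prime_gt_and_eq_mod
    ((ZMod.isUnit_iff_coprime y (8 * (l * W))).mpr hcop) 0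
  have hpm : p ≡ y [MOD 8 * (l * W)] := (ZMod.natCast_eq_natCast_iff _ _ _).mp hpy
  have hp8 : p ≡ 3 [MOD 8] := (hpm.of_mul_right (l * W)).trans hy1
  have hpl : p ≡ c + (l - 1) [MOD l] :=
    ((hpm.of_mul_left 8).of_mul_right W).trans hyl
  have hpW : p ≡ 1 [MOD W] := ((hpm.of_mul_left 8).of_mul_left l).trans hyW
  have hp8' : p % 8 = 3 := hp8
  obtain ⟨κ₀, hκ⟩ : ∃ κ₀, p + 1 = 4 * κ₀ := ⟨(p + 1) / 4, by omega⟩
  refine ⟨κ₀, ?_, ?_, ?_, ?_⟩
  · rw [Nat.odd_iff]; omega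
  · rw [← hκ]
    exact Pool.Agent.H13R3.PH.hasHad_paley hp (by omega)
  · have h1 : 4 * κ₀ ≡ 2 [MOD W] := by
      rw [← hκ]; exact hpW.add_right 1
    have h2 : Nat.Coprime (4 * κ₀) W := by
      rw [Nat.Coprime, h1.gcd_eq, ← Nat.Coprime]
      exact (Nat.coprime_two_left).mpr hW
    exact Nat.Coprime.coprime_mul_left h2
  · rw [← hκ]
    have h1 : p + 1 ≡ c + (l - 1) + 1 [MOD l] := hpl.add_right 1
    have h2 : c + (l - 1) + 1 = c + l := by omega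
    rw [h2] at h1
    have h3 := (Nat.modEq_iff_dvd.mp h1.symm)
    push_cast at h3 ⊢
    have h4 : (p : ℤ) + 1 - c = (p + 1 - (c + l)) + l := by ring
    rw [h4]
    exact dvd_add h3 (dvd_refl _)

/-- seeds in every class prime to `l` -/
lemma seedY {l W : ℕ} (hl : l.Prime) (hl2 : l ≠ 2) (hW : Odd W) (hlW : ¬ l ∣ W) (c : ℕ) :
    ∃ κ κ₀ : ℕ, Odd κ₀ ∧ (κ = 1 ∧ κ₀ = 1 ∨ κ = 4 * κ₀ ∧ Pool.Agent.H108R3.Had.HasHad κ) ∧
      Nat.Coprime κ₀ W ∧ (l : ℤ) ∣ (κ : ℤ) - c := by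
  by_cases hc1 : (l : ℤ) ∣ (c : ℤ) - 1
  · refine ⟨1, 1, odd_one, Or.inl ⟨rfl, rfl⟩, Nat.coprime_one_left W, ?_⟩
    have : ((1 : ℕ) : ℤ) - c = -((c : ℤ) - 1) := by push_cast; ring
    rw [this]
    exact (dvd_neg).mpr hc1
  · obtain ⟨κ₀, h1, h2, h3, h4⟩ := seed4 hl hl2 hW hlW c hc1
    exact ⟨4 * κ₀, κ₀, h1, Or.inr ⟨rfl, h2⟩, h3, h4⟩

/-- one residue class modulo `l` -/
theorem classThm4 {l : ℕ} (hl : l.Prime) (hl2 : l ≠ 2) (c : ℕ) (hc : ¬ l ∣ c) :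
    ∃ n₀ : ℕ, ∀ v : ℕ, n₀ ≤ v → (l : ℤ) ∣ 4 * (v : ℤ) - 16 * c →
      MH (4 * l) (4 * v) := by
  have hlodd : Odd l := hl.odd_of_ne_two hl2
  have hl3 : 3 ≤ l := by
    have := hl.two_le; omega
  have hlp : Prime (l : ℤ) := Nat.prime_iff_prime_int.mp hl
  have hl2' : ¬ (l : ℤ) ∣ 2 := by
    intro h
    have h1 : l ∣ 2 := by exact_mod_cast h
    have := Nat.le_of_dvd (by norm_num) h1
    omega
  -- the modulus `k = 2 ^ (l - 1) - 1`
  obtain ⟨k, hk⟩ : ∃ k, k + 1 = 2 ^ (l - 1) :=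
    ⟨2 ^ (l - 1) - 1, Nat.sub_add_cancel Nat.one_le_two_pow⟩
  have hlk : l ∣ k := by
    have h1 : 2 ^ (l - 1) ≡ 1 [MOD l] := by
      have h2 := Nat.ModEq.pow_totient (x := 2) (n := l)
        ((Nat.coprime_two_left).mpr hlodd)
      rwa [Nat.totient_prime hl] at h2
    rw [← hk] at h1
    have h3 : k ≡ 0 [MOD l] := Nat.ModEq.add_right_cancel' 1 h1
    exact (Nat.modEq_zero_iff_dvd).mp h3
  have hkodd : Odd k := by
    have h1 : Even (k + 1) := by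
      rw [hk]
      exact (Nat.even_pow).mpr ⟨even_two, by omega⟩
    rcases Nat.even_or_odd k with h | h
    · exfalso
      have := h.add_one
      exact (Nat.not_even_iff_odd.mpr this) h1
    · exact h
  have hk0 : k ≠ 0 := by rintro rfl; simp at hkodd
  obtain ⟨j, m1, hm1, hkm⟩ := Nat.exists_eq_pow_mul_and_not_dvd hk0 l hl.ne_one
  have hm1odd : Odd m1 := by
    rw [hkm] at hkodd
    exact (Nat.odd_mul.mp hkodd).2
  -- the seeds
  obtain ⟨κ', κ'₀, s1, s2, s3, s4, s5⟩ := seedX hl hl2 hm1odd hm1 c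
  have hlκ' : ¬ l ∣ κ' := by
    intro h
    apply hc
    have h1 : (l : ℤ) ∣ (κ' : ℤ) := by exact_mod_cast h
    have h2 : (l : ℤ) ∣ (c : ℤ) := (dvd_sub_right h1).mp s5
    exact_mod_cast h2
  have hlκ'₀ : ¬ l ∣ κ'₀ := by
    rcases s3 with ⟨h1, h2⟩ | h1
    · rw [h2]; intro h; exact hl.one_lt.ne' (Nat.dvd_one.mp h)
    · intro h; exact hlκ' (h1 ▸ Dvd.dvd.mul_left h 4)
  have hWodd : Odd (m1 * κ'₀) := hm1odd.mul s2
  have hlW : ¬ l ∣ m1 * κ'₀ := by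
    rw [hl.dvd_mul]; tauto
  obtain ⟨κ, κ₀, t2, t3, t4, t5⟩ := seedY hl hl2 hWodd hlW (2 * c)
  have hlκ : ¬ l ∣ κ := by
    intro h
    have h1 : (l : ℤ) ∣ (κ : ℤ) := by exact_mod_cast h
    have h2 : (l : ℤ) ∣ ((2 * c : ℕ) : ℤ) := (dvd_sub_right h1).mp t5
    have h3 : l ∣ 2 * c := by exact_mod_cast h2
    rcases (hl.dvd_mul).mp h3 with h4 | h4
    · have := Nat.le_of_dvd (by norm_num) h4
      omega
    · exact hc h4
  have hlκ₀ : ¬ l ∣ κ₀ := by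
    rcases t3 with ⟨h1, h2⟩ | ⟨h1, -⟩
    · rw [h2]; intro h; exact hl.one_lt.ne' (Nat.dvd_one.mp h)
    · intro h; exact hlκ (h1 ▸ Dvd.dvd.mul_left h 4)
  have hκ0pos : 0 < κ₀ := t2.pos
  have hκ'0pos : 0 < κ'₀ := s2.pos
  have hκpos : 0 < κ := by rcases t3 with ⟨h, -⟩ | ⟨h, -⟩ <;> omega
  have hκ'pos : 0 < κ' := by rcases s3 with ⟨h, -⟩ | h <;> omega
  -- coprimality
  have c1 : Nat.Coprime κ₀ m1 := Nat.Coprime.coprime_mul_right_right t4
  have c2 : Nat.Coprime κ₀ κ'₀ := Nat.Coprime.coprime_mul_left_right t4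
  have c3 : Nat.Coprime κ₀ l := ((Nat.Prime.coprime_iff_not_dvd hl).mpr hlκ₀).symm
  have c4 : Nat.Coprime κ₀ k := by
    rw [hkm]
    exact Nat.Coprime.mul_right (Nat.Coprime.pow_right j c3) c1
  have c5 : Nat.Coprime κ'₀ k := by
    rw [hkm]
    exact Nat.Coprime.mul_right (Nat.Coprime.pow_right j
      ((Nat.Prime.coprime_iff_not_dvd hl).mpr hlκ'₀).symm) s4
  have c6 : Nat.Coprime 2 κ₀ := (Nat.coprime_two_left).mpr t2
  have c7 : Nat.Coprime 2 k := (Nat.coprime_two_left).mpr hkodd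
  have hκ'dvd : κ' ∣ 4 * κ'₀ := by
    rcases s3 with ⟨h, h'⟩ | h
    · rw [h]; exact one_dvd _
    · rw [h]
  have hM2dvd : 2 * (k + 1) * (2 * κ') ∣ 2 ^ (l + 3) * κ'₀ := by
    have h1 : 2 * (k + 1) = 2 ^ l := by
      rw [hk, ← pow_succ']
      congr 1
      omega
    rw [h1]
    have h2 : 2 ^ (l + 3) * κ'₀ = 2 ^ l * (2 * (4 * κ'₀)) := by rw [pow_add]; ring
    rw [h2]
    exact Nat.mul_dvd_mul_left _ (Nat.mul_dvd_mul_left _ hκ'dvd)
  have c8 : Nat.Coprime κ₀ (2 * (k + 1) * (2 * κ')) := by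
    refine Nat.Coprime.coprime_dvd_right hM2dvd ?_
    exact Nat.Coprime.mul_right (Nat.Coprime.pow_right _ c6.symm) c2
  have c9 : Nat.Coprime k (κ₀ * (2 * (k + 1) * (2 * κ'))) := by
    refine Nat.Coprime.mul_right c4.symm (Nat.Coprime.coprime_dvd_right hM2dvd ?_)
    exact Nat.Coprime.mul_right (Nat.Coprime.pow_right _ c7.symm) c5.symm
  have hS : MH l (2 * (k + 1)) := by
    have h1 : 2 * (k + 1) = 2 ^ l := by
      rw [hk, ← pow_succ']
      congr 1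
      omega
    rw [h1]
    exact MH_pow_two l l
  have h4k : 4 ∣ 2 * (k + 1) := by
    obtain ⟨z, hz⟩ := hkodd
    exact ⟨z + 1, by omega⟩
  set M1 := κ₀ with hM1
  set M2 := 2 * (k + 1) * (2 * κ') with hM2
  have hM2pos : 0 < M2 := by positivity
  refine ⟨(k + 2) * (M1 * M2), fun v hv hcl => ?_⟩
  have i12 : IsCoprime (M1 : ℤ) (M2 : ℤ) := Nat.isCoprime_iff_coprime.mpr c8
  have ik : IsCoprime (k : ℤ) ((M1 : ℤ) * (M2 : ℤ)) := by
    have := Nat.isCoprime_iff_coprime.mpr c9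
    push_cast at this ⊢
    exact this
  obtain ⟨g', g0, g1, g2, g3⟩ := solve (v := (v : ℤ)) i12 ik (by positivity)
  lift g' to ℕ using g0 with g hg
  have hgb : (k + 2) * g ≤ v := by
    have h1 : g < M1 * M2 := by exact_mod_cast g1
    calc (k + 2) * g ≤ (k + 2) * (M1 * M2) := by gcongr
      _ ≤ v := hv
  -- `b`
  have g3' : M2 ∣ 2 * v + k * g := by exact_mod_cast g3
  obtain ⟨b2, hb2⟩ := g3'
  obtain ⟨b1, hb12⟩ : ∃ b1, b1 = 2 * b2 := ⟨_, rfl⟩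
  have hb1 : 2 * v + k * g = 2 * (k + 1) * κ' * b1 := by rw [hb2, hM2, hb12]; ring
  have h4a : (4 : ℤ) ∣ 2 * (v : ℤ) - k * g := by
    have h5 : (4 : ℤ) ∣ 2 * (v : ℤ) + k * g := by
      refine dvd_trans ?_ g3
      rw [hM2]
      have : (4 : ℕ) ∣ 2 * (k + 1) * (2 * κ') := Dvd.dvd.mul_right h4k _
      exact_mod_cast this
    have h6 : 2 * (v : ℤ) - k * g = 4 * v - (2 * v + k * g) := by ring
    rw [h6]
    exact dvd_sub (dvd_mul_right _ _) h5
  have hgeven : Even g := by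
    have h5 : 4 ∣ 2 * v + k * g := by
      rw [hb2, hM2]
      exact Dvd.dvd.mul_right (Dvd.dvd.mul_right h4k _) _
    have h6 : (4 : ℤ) ∣ 2 * ((k : ℤ) * g) := by
      have h7 : (4 : ℤ) ∣ 2 * (v : ℤ) + k * g := by exact_mod_cast h5
      have h8 : 2 * ((k : ℤ) * g) = (2 * (v : ℤ) + k * g) - (2 * (v : ℤ) - k * g) := by ring
      rw [h8]
      exact dvd_sub h7 h4a
    have h7 : 4 ∣ 2 * (k * g) := by exact_mod_cast h6
    have h8 : 2 ∣ k * g := by omega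
    rcases (Nat.prime_two.dvd_mul).mp h8 with h9 | h9
    · exfalso
      rw [Nat.odd_iff] at hkodd
      omega
    · exact (even_iff_two_dvd).mpr h9
  -- `a`
  have hκdvd : (κ : ℤ) ∣ 2 * (v : ℤ) - k * g := by
    rcases t3 with ⟨h, -⟩ | ⟨h, -⟩
    · rw [h]; simp
    · rw [h]
      push_cast
      have h4 : (4 : ℤ) ∣ 2 * (v : ℤ) - k * g := by
        have h5 : (4 : ℤ) ∣ 2 * (v : ℤ) + k * g := by
          refine dvd_trans ?_ g3
          rw [hM2]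
          have : (4 : ℕ) ∣ 2 * (k + 1) * (2 * κ') := Dvd.dvd.mul_right h4k _
          exact_mod_cast this
        have h6 : 2 * (v : ℤ) - k * g = 4 * v - (2 * v + k * g) := by ring
        rw [h6]
        exact dvd_sub (dvd_mul_right _ _) h5
      refine IsCoprime.mul_dvd ?_ h4 g2
      have h7 : Nat.Coprime 4 κ₀ := Nat.Coprime.pow_left 2 c6
      exact_mod_cast (Nat.isCoprime_iff_coprime.mpr h7)
  obtain ⟨a1', ha1⟩ := hκdvd
  have hle : (k : ℤ) * g + 2 * g ≤ v := by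
    have : k * g + 2 * g ≤ v := by rw [← add_mul]; exact hgb
    exact_mod_cast this
  have hg0 : (0 : ℤ) ≤ g := by positivity
  have hv0 : (0 : ℤ) ≤ v := by positivity
  have ha0 : 0 ≤ a1' := by
    by_contra hneg
    push Not at hneg
    have h1 : (κ : ℤ) * a1' < 0 := mul_neg_of_pos_of_neg (by exact_mod_cast hκpos) hneg
    linarith
  lift a1' to ℕ using ha0 with a1 ha1'
  -- `h`
  have hgle : g ≤ κ' * b1 := by
    have h1 : 2 * (k + 1) * g ≤ 2 * (k + 1) * (κ' * b1) := by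
      have h2 : 2 * (k + 1) * (κ' * b1) = 2 * v + k * g := by
        rw [hb1]; ring
      rw [h2]
      have h3 : k * g + 2 * g ≤ v := by rw [← add_mul]; exact hgb
      have h4 : 2 * (k + 1) * g = 2 * (k * g) + 2 * g := by ring
      rw [h4]
      omega
    exact Nat.le_of_mul_le_mul_left h1 (by positivity)
  obtain ⟨h, hh⟩ := Nat.exists_eq_add_of_le hgle
  have hb1Z : 2 * (v : ℤ) + k * g = 2 * ((k : ℤ) + 1) * (g + h) := by
    have h1 : (2 * v + k * g : ℕ) = 2 * (k + 1) * (g + h) := by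
      rw [← hh, hb1]; ring
    exact_mod_cast h1
  have ha1N : 2 * (k + 1) * h + 2 * g = κ * a1 := by
    have h1 : (2 * ((k : ℤ) + 1) * h + 2 * g) = κ * a1 := by
      rw [← ha1]
      linarith
    exact_mod_cast h1
  have hsum : (2 * (k + 1) * h + 2 * g) + 2 * (k + 1) * (g + h) = 4 * v := by
    have h1 : ((2 * ((k : ℤ) + 1) * h + 2 * g) + 2 * ((k : ℤ) + 1) * (g + h)) = 4 * v := by
      linarith
    exact_mod_cast h1
  -- the classes modulo `l`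
  have hlkZ : (l : ℤ) ∣ (k : ℤ) * g := Dvd.dvd.mul_right (by exact_mod_cast hlk) _
  have hA1 : (l : ℤ) ∣ (a1 : ℤ) - 4 := by
    have h1 : (l : ℤ) ∣ 2 * ((κ : ℤ) * ((a1 : ℤ) - 4)) := by
      have h2 : 2 * ((κ : ℤ) * ((a1 : ℤ) - 4)) =
          (4 * (v : ℤ) - 16 * c) - 2 * (k * g) - 8 * ((κ : ℤ) - ((2 * c : ℕ) : ℤ)) := by
        have h3 : (κ : ℤ) * a1 = 2 * v - k * g := ha1.symm
        have h4 : 2 * ((κ : ℤ) * ((a1 : ℤ) - 4)) = 2 * ((κ : ℤ) * a1) - 8 * κ := by ring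
        rw [h4, h3]
        push_cast
        ring
      rw [h2]
      exact dvd_sub (dvd_sub hcl (Dvd.dvd.mul_left hlkZ 2)) (Dvd.dvd.mul_left t5 8)
    rcases hlp.dvd_or_dvd h1 with h2 | h2
    · exact absurd h2 hl2'
    · rcases hlp.dvd_or_dvd h2 with h3 | h3
      · exact absurd (by exact_mod_cast h3) hlκ
      · exact h3
  have hA : MH (4 * l) (κ * a1) := by
    rcases t3 with ⟨h1, -⟩ | ⟨h1, h2⟩
    · rw [h1, one_mul]
      apply MH_four
      push_cast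
      apply four_mul_dvd hlodd hA1
      rw [ha1, h1] at h4a
      have h5 : (4 : ℤ) ∣ (a1 : ℤ) := by simpa using h4a
      exact dvd_sub h5 (dvd_refl 4)
    · exact had_mul (by rw [h1]; exact dvd_mul_right _ _) h2 (MH_four hA1)
  have hB : MH l (κ' * b1) := by
    refine s1.mul (MH_four ?_)
    have h1 : (l : ℤ) ∣ 2 * (2 * ((κ' : ℤ) * ((b1 : ℤ) - 4))) := by
      have h3 : 2 * ((k : ℤ) + 1) * (κ' * b1) = 2 * v + k * g := by
        have : (2 * (k + 1) * (κ' * b1) : ℕ) = 2 * v + k * g := by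
          rw [hb1]; ring
        exact_mod_cast this
      have h2 : 2 * (2 * ((κ' : ℤ) * ((b1 : ℤ) - 4))) =
          (4 * (v : ℤ) - 16 * c) + 2 * (k * g) - (k : ℤ) * (4 * (κ' * b1)) -
            16 * ((κ' : ℤ) - c) := by
        have h5 : 2 * (2 * ((k : ℤ) + 1) * (κ' * b1)) = 2 * (2 * v + k * g) := by rw [h3]
        linarith
      rw [h2]
      exact dvd_sub (dvd_sub (dvd_add hcl (Dvd.dvd.mul_left hlkZ 2))
        (Dvd.dvd.mul_right (by exact_mod_cast hlk) _)) (Dvd.dvd.mul_left s5 16)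
    rcases hlp.dvd_or_dvd h1 with h2 | h2
    · exact absurd h2 hl2'
    · rcases hlp.dvd_or_dvd h2 with h3 | h3
      · exact absurd h3 hl2'
      · rcases hlp.dvd_or_dvd h3 with h4 | h4
        · exact absurd (by exact_mod_cast h4) hlκ'
        · exact h4
  rw [← ha1N] at hA
  rw [hh] at hB
  have hghe : Even (g + h) := by
    rw [← hh, hb12]
    exact ⟨κ' * b2, by ring⟩
  have := comb4 hlodd hlk hgeven hghe hA hB hS
  rwa [hsum] at this

/-- all classes -/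
theorem modular4 {l : ℕ} (hl : l.Prime) (hl2 : l ≠ 2) :
    ∃ n₀ : ℕ, ∀ n : ℕ, n₀ ≤ n → 4 ∣ n → MH (4 * l) n := by
  classical
  have hlodd : Odd l := hl.odd_of_ne_two hl2
  have hex : ∀ c : ℕ, ∃ n₀ : ℕ, ¬ l ∣ c → ∀ v : ℕ, n₀ ≤ v → (l : ℤ) ∣ 4 * (v : ℤ) - 16 * c →
      MH (4 * l) (4 * v) := by
    intro c
    by_cases hc : l ∣ c
    · exact ⟨0, fun h => absurd hc h⟩
    · obtain ⟨n₀, h⟩ := classThm4 hl hl2 c hc
      exact ⟨n₀, fun _ => h⟩
  choose f hf using hex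
  refine ⟨4 * ((range l).sup f), fun n hn h4 => ?_⟩
  obtain ⟨v, rfl⟩ := h4
  by_cases hlv : l ∣ 4 * v
  · refine MH_zero ?_
    have h1 : Nat.Coprime 4 l := Nat.Coprime.pow_left 2 ((Nat.coprime_two_left).mpr hlodd)
    exact Nat.Coprime.mul_dvd_of_dvd_of_dvd h1 (dvd_mul_right _ _) hlv
  -- the class
  have hcop : Nat.Coprime 4 l := Nat.Coprime.pow_left 2 ((Nat.coprime_two_left).mpr hlodd)
  obtain ⟨i4, -, hi4⟩ := Nat.exists_mul_mod_eq_one_of_coprime hcop hl.one_lt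
  set c := (v * i4) % l with hc
  have hcl : (l : ℤ) ∣ 4 * (v : ℤ) - 16 * c := by
    have h1 : (4 * c) ≡ v [MOD l] := by
      calc 4 * c ≡ 4 * (v * i4) [MOD l] := Nat.ModEq.mul_left 4 (Nat.mod_modEq _ _)
        _ = v * (4 * i4) := by ring
        _ ≡ v * 1 [MOD l] := Nat.ModEq.mul_left v (by
            have : 4 * i4 % l = 1 % l := by rw [hi4, Nat.mod_eq_of_lt hl.one_lt]
            exact this)
        _ = v := by ring
    have h2 := Nat.modEq_iff_dvd.mp h1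
    push_cast at h2
    have h3 : 4 * (v : ℤ) - 16 * c = 4 * ((v : ℤ) - 4 * c) := by ring
    rw [h3]
    exact Dvd.dvd.mul_left h2 4
  have hc0 : ¬ l ∣ c := by
    intro h
    apply hlv
    have h1 : (l : ℤ) ∣ 16 * (c : ℤ) := Dvd.dvd.mul_left (by exact_mod_cast h) _
    have h2 : (l : ℤ) ∣ 4 * (v : ℤ) := by
      have := dvd_add hcl h1
      simpa using this
    exact_mod_cast h2
  have hcr : c ∈ range l := mem_range.mpr (Nat.mod_lt _ hl.pos)
  refine hf c hc0 v ?_ hcl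
  have h1 : f c ≤ (range l).sup f := Finset.le_sup hcr
  omega

end Pool.Agent.H627R5.Md
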