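import Mathlib

/-! A square sign matrix of order `2 b + d` from Hadamard matrices of orders `b + d` and `b`. -/

open Finset Matrix

namespace Pool.Agent.H627R5

/-- the row index type -/
abbrev RI (b d : ℕ) : Type := (Fin b × Bool) ⊕ Fin d

variable {b d : ℕ}

/-- the row of `A` used by a row -/
def rowA : RI b d → Fin (b + d)
  | Sum.inl x => Fin.castAdd d x.1
  | Sum.inr i => Fin.natAdd b i

/-- the row of `B` used by a row -/
def rowB (hdb : d ≤ b) : RI b d → Fin b
  | Sum.inl x => x.1
  | Sum.inr i => Fin.castLE hdb i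

/-- the sign of the `B` part -/
def sg : RI b d → ℤ
  | Sum.inl x => if x.2 then 1 else -1
  | Sum.inr _ => 1

lemma sg_sign (x : RI b d) : sg x = 1 ∨ sg x = -1 := by
  rcases x with ⟨k, s⟩ | i
  · cases s <;> simp [sg]
  · simp [sg]

lemma sg_sq (x : RI b d) : sg x * sg x = 1 := by
  rcases sg_sign x with h | h <;> rw [h] <;> norm_num

/-- the matrix -/
def MM (hdb : d ≤ b) (A : Matrix (Fin (b + d)) (Fin (b + d)) ℤ) (B : Matrix (Fin b) (Fin b) ℤ) :
    Matrix (RI b d) (Fin (b + d) ⊕ Fin b) ℤ :=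
  Matrix.of fun x j => Sum.elim (fun j => A (rowA x) j) (fun j => sg x * B (rowB hdb x) j) j

section
variable (hdb : d ≤ b) {A : Matrix (Fin (b + d)) (Fin (b + d)) ℤ} {B : Matrix (Fin b) (Fin b) ℤ}

lemma MM_sign (hA : ∀ i j, A i j = 1 ∨ A i j = -1) (hB : ∀ i j, B i j = 1 ∨ B i j = -1)
    (x : RI b d) (j : Fin (b + d) ⊕ Fin b) : MM hdb A B x j = 1 ∨ MM hdb A B x j = -1 := by
  rcases j with j | j
  · exact hA _ _
  · simp only [MM, Matrix.of_apply, Sum.elim_inr]
    rcases sg_sign x with h | h <;> rcases hB (rowB hdb x) j with h' | h' <;> rw [h, h'] <;> simp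

lemma gram (hA : A * Aᵀ = ((b + d : ℕ) : ℤ) • (1 : Matrix (Fin (b + d)) (Fin (b + d)) ℤ))
    (hB : B * Bᵀ = (b : ℤ) • (1 : Matrix (Fin b) (Fin b) ℤ)) (x y : RI b d) :
    (MM hdb A B * (MM hdb A B)ᵀ) x y =
      (if rowA x = rowA y then ((b : ℤ) + d) else 0) +
        sg x * sg y * (if rowB hdb x = rowB hdb y then (b : ℤ) else 0) := by
  have h1 := congrFun (congrFun hA (rowA x)) (rowA y)
  have h2 := congrFun (congrFun hB (rowB hdb x)) (rowB hdb y)
  rw [Matrix.mul_apply] at h1 h2
  simp only [Matrix.transpose_apply, Matrix.smul_apply, smul_eq_mul, Matrix.one_apply] at h1 h2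
  rw [Matrix.mul_apply, Fintype.sum_sum_type]
  simp only [Matrix.transpose_apply, MM, Matrix.of_apply, Sum.elim_inl, Sum.elim_inr]
  rw [h1]
  have : ∑ j : Fin b, sg x * B (rowB hdb x) j * (sg y * B (rowB hdb y) j) =
      sg x * sg y * ∑ j : Fin b, B (rowB hdb x) j * B (rowB hdb y) j := by
    rw [Finset.mul_sum]; exact Finset.sum_congr rfl fun j _ => by ring
  rw [this, h2]
  push_cast
  split_ifs <;> ring

lemma rowB_of_rowA {x y : RI b d} (h : rowA x = rowA y) : rowB hdb x = rowB hdb y := by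
  rcases x with ⟨k, s⟩ | i <;> rcases y with ⟨k', s'⟩ | i'
  · simp only [rowA, rowB] at h ⊢
    exact Fin.castAdd_injective _ _ h
  · exfalso
    simp only [rowA, Fin.ext_iff, Fin.val_castAdd, Fin.val_natAdd] at h
    omega
  · exfalso
    simp only [rowA, Fin.ext_iff, Fin.val_castAdd, Fin.val_natAdd] at h
    omega
  · simp only [rowA, rowB] at h ⊢
    have := Fin.natAdd_injective _ _ h
    rw [this]

/-- rows using different rows of `B` are orthogonal -/
lemma gram_zero (hA : A * Aᵀ = ((b + d : ℕ) : ℤ) • (1 : Matrix (Fin (b + d)) (Fin (b + d)) ℤ))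
    (hB : B * Bᵀ = (b : ℤ) • (1 : Matrix (Fin b) (Fin b) ℤ)) {x y : RI b d}
    (h : rowB hdb x ≠ rowB hdb y) : (MM hdb A B * (MM hdb A B)ᵀ) x y = 0 := by
  rw [gram hdb hA hB, if_neg (fun h' => h (rowB_of_rowA hdb h')), if_neg h]
  ring

lemma card_fiber' (k : Fin b) : (univ.filter fun y : RI b d => rowB hdb y = k).card ≤ 3 := by
  classical
  have hsub : (univ.filter fun y : RI b d => rowB hdb y = k) ⊆
      ({Sum.inl (k, true), Sum.inl (k, false)} : Finset (RI b d)) ∪
        (univ.filter fun i : Fin d => Fin.castLE hdb i = k).image Sum.inr := by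
    intro y hy
    simp only [mem_filter, mem_univ, true_and] at hy
    rcases y with ⟨k', s⟩ | i
    · simp only [rowB] at hy
      subst hy
      cases s <;> simp
    · simp only [rowB] at hy
      simp [hy]
  have hc1 : (univ.filter fun i : Fin d => Fin.castLE hdb i = k).card ≤ 1 := by
    rw [Finset.card_le_one]
    intro i hi i' hi'
    simp only [mem_filter, mem_univ, true_and] at hi hi'
    exact Fin.castLE_injective hdb (hi.trans hi'.symm)
  refine (Finset.card_le_card hsub).trans ((Finset.card_union_le _ _).trans ?_)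
  have h1 : ({Sum.inl (k, true), Sum.inl (k, false)} : Finset (RI b d)).card ≤ 2 :=
    Finset.card_le_two
  have h2 := (Finset.card_image_le (s := univ.filter fun i : Fin d =>
    Fin.castLE hdb i = k) (f := (Sum.inr : Fin d → RI b d))).trans hc1
  omega

/-- at most two other rows use the same row of `B` -/
lemma card_fiber (x : RI b d) :
    (univ.filter fun y => y ≠ x ∧ rowB hdb y = rowB hdb x).card ≤ 2 := by
  classical
  have hc := card_fiber' hdb (rowB hdb x)
  have he : (univ.filter fun y => y ≠ x ∧ rowB hdb y = rowB hdb x) =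
      (univ.filter fun y => rowB hdb y = rowB hdb x).erase x := by
    ext y
    simp [mem_erase]
  rw [he, Finset.card_erase_of_mem (by simp)]
  omega

/-- the exceptional rows -/
def exc : Finset (RI b d) := univ.filter fun x => ((rowB hdb x : Fin b) : ℕ) < d

lemma card_exc : (exc hdb : Finset (RI b d)).card ≤ 3 * d := by
  classical
  have hsub : (exc hdb : Finset (RI b d)) ⊆
      (univ : Finset (Fin d × Bool)).image (fun z => Sum.inl (Fin.castLE hdb z.1, z.2)) ∪
        (univ : Finset (Fin d)).image Sum.inr := by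
    intro x hx
    simp only [exc, mem_filter, mem_univ, true_and] at hx
    rcases x with ⟨k, s⟩ | i
    · simp only [rowB] at hx
      simp only [mem_union, mem_image, mem_univ, true_and]
      left
      exact ⟨(⟨k, hx⟩, s), rfl⟩
    · simp
  refine (Finset.card_le_card hsub).trans ((Finset.card_union_le _ _).trans ?_)
  have h1 := Finset.card_image_le (s := (univ : Finset (Fin d × Bool)))
    (f := fun z => (Sum.inl (Fin.castLE hdb z.1, z.2) : RI b d))
  have h2 := Finset.card_image_le (s := (univ : Finset (Fin d)))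
    (f := (Sum.inr : Fin d → RI b d))
  simp only [card_univ, Fintype.card_prod, Fintype.card_bool, Fintype.card_fin] at h1 h2
  omega

/-- a row outside the exceptional set is orthogonal to all rows but one, and the remaining inner
product is `± d` -/
lemma gram_good (hA : A * Aᵀ = ((b + d : ℕ) : ℤ) • (1 : Matrix (Fin (b + d)) (Fin (b + d)) ℤ))
    (hB : B * Bᵀ = (b : ℤ) • (1 : Matrix (Fin b) (Fin b) ℤ)) {x : RI b d}
    (hx : x ∉ exc hdb) : ∃ x' : RI b d, x' ≠ x ∧ (MM hdb A B * (MM hdb A B)ᵀ) x x' = d ∧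
      ∀ y, y ≠ x → y ≠ x' → (MM hdb A B * (MM hdb A B)ᵀ) x y = 0 := by
  simp only [exc, mem_filter, mem_univ, true_and, not_lt] at hx
  rcases x with ⟨k, s⟩ | i
  · simp only [rowB] at hx
    refine ⟨Sum.inl (k, !s), by cases s <;> simp, ?_, ?_⟩
    · rw [gram hdb hA hB]
      cases s <;> simp [rowA, rowB, sg]
    · intro y hy hy'
      apply gram_zero hdb hA hB
      intro h
      rcases y with ⟨k', s'⟩ | i'
      · simp only [rowB] at h
        subst h
        cases s <;> cases s' <;> simp_all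
      · simp only [rowB] at h
        rw [h] at hx
        simp only [Fin.val_castLE] at hx
        omega
  · exfalso
    simp only [rowB, Fin.val_castLE] at hx
    omega

/-- two distinct rows have inner product at most half of the number of columns -/
lemma gram_half (hA : A * Aᵀ = ((b + d : ℕ) : ℤ) • (1 : Matrix (Fin (b + d)) (Fin (b + d)) ℤ))
    (hB : B * Bᵀ = (b : ℤ) • (1 : Matrix (Fin b) (Fin b) ℤ)) {x y : RI b d} (hxy : x ≠ y) :
    2 * |(MM hdb A B * (MM hdb A B)ᵀ) x y| ≤ (b + d + b : ℕ) := by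
  have hdb' : (d : ℤ) ≤ b := by exact_mod_cast hdb
  have hb0 : (0 : ℤ) ≤ b := by positivity
  have hd0 : (0 : ℤ) ≤ d := by positivity
  push_cast
  by_cases hr : rowB hdb x = rowB hdb y
  · by_cases ha : rowA x = rowA y
    · have hG : (MM hdb A B * (MM hdb A B)ᵀ) x y = d := by
        rw [gram hdb hA hB, if_pos ha, if_pos hr]
        rcases x with ⟨k, s⟩ | i <;> rcases y with ⟨k', s'⟩ | i'
        · simp only [rowB] at hr
          subst hr
          cases s <;> cases s' <;> simp [sg] at hxy ⊢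
        · exfalso
          simp only [rowA, Fin.ext_iff, Fin.val_castAdd, Fin.val_natAdd] at ha
          omega
        · exfalso
          simp only [rowA, Fin.ext_iff, Fin.val_castAdd, Fin.val_natAdd] at ha
          omega
        · exfalso
          simp only [rowA] at ha
          exact hxy (by rw [Fin.natAdd_injective _ _ ha])
      rw [hG, abs_of_nonneg hd0]
      linarith
    · have hG : |(MM hdb A B * (MM hdb A B)ᵀ) x y| ≤ b := by
        rw [gram hdb hA hB, if_neg ha, if_pos hr, zero_add]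
        rcases sg_sign x with h | h <;> rcases sg_sign y with h' | h' <;> rw [h, h'] <;>
          simp [abs_of_nonneg hb0]
      linarith
  · rw [gram_zero hdb hA hB hr]
    simp only [abs_zero, mul_zero]
    positivity

/-! ### columns -/

lemma col_orth {n : ℕ} {H : Matrix (Fin n) (Fin n) ℤ}
    (h : H * Hᵀ = (n : ℤ) • (1 : Matrix (Fin n) (Fin n) ℤ)) :
    Hᵀ * H = (n : ℤ) • (1 : Matrix (Fin n) (Fin n) ℤ) := by
  rcases Nat.eq_zero_or_pos n with rfl | hn
  · ext i; exact i.elim0
  have hn0 : (n : ℤ) ≠ 0 := by exact_mod_cast hn.ne'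
  have hdet : H.det ≠ 0 := by
    intro h0
    have h1 := congrArg Matrix.det h
    rw [Matrix.det_mul, h0, zero_mul, Matrix.det_smul, Matrix.det_one, mul_one] at h1
    exact pow_ne_zero _ hn0 h1.symm
  have h2 : H * (Hᵀ * H) = H * ((n : ℤ) • (1 : Matrix (Fin n) (Fin n) ℤ)) := by
    rw [← Matrix.mul_assoc, h, Matrix.smul_mul, Matrix.one_mul, Matrix.mul_smul, Matrix.mul_one]
  have h3 : H.det • (Hᵀ * H) = H.det • ((n : ℤ) • (1 : Matrix (Fin n) (Fin n) ℤ)) := by
    have := congrArg (fun M => H.adjugate * M) h2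
    simp only [← Matrix.mul_assoc, Matrix.adjugate_mul] at this
    simpa [Matrix.smul_mul, Matrix.mul_assoc] using this
  ext i j
  have h4 := congrFun (congrFun h3 i) j
  simp only [Matrix.smul_apply, smul_eq_mul] at h4
  exact mul_left_cancel₀ hdet h4

lemma abs_sum_le {m : ℕ} (f : Fin m → ℤ) (hf : ∀ i, |f i| ≤ 1) : |∑ i, f i| ≤ m := by
  refine (Finset.abs_sum_le_sum_abs _ _).trans ?_
  refine (Finset.sum_le_sum fun i _ => hf i).trans ?_
  simp

lemma abs_mul_sign {u v : ℤ} (hu : u = 1 ∨ u = -1) (hv : v = 1 ∨ v = -1) : |u * v| ≤ 1 := by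
  rcases hu with h | h <;> rcases hv with h' | h' <;> rw [h, h'] <;> norm_num

lemma sgT (k : Fin b) : sg (Sum.inl (k, true) : RI b d) = 1 := by simp [sg]

lemma sgF (k : Fin b) : sg (Sum.inl (k, false) : RI b d) = -1 := by simp [sg]

lemma sgR (i : Fin d) : sg (Sum.inr i : RI b d) = 1 := by simp [sg]

lemma sum_RI (f : RI b d → ℤ) :
    ∑ x, f x = (∑ k : Fin b, (f (Sum.inl (k, true)) + f (Sum.inl (k, false)))) +
      ∑ i : Fin d, f (Sum.inr i) := by
  rw [Fintype.sum_sum_type, Fintype.sum_prod_type]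
  congr 1
  refine Finset.sum_congr rfl fun k _ => ?_
  rw [Fintype.sum_bool]

/-- distinct columns have inner products at most `d` in absolute value -/
lemma col_bound (hA1 : ∀ i j, A i j = 1 ∨ A i j = -1) (hB1 : ∀ i j, B i j = 1 ∨ B i j = -1)
    (hA : A * Aᵀ = ((b + d : ℕ) : ℤ) • (1 : Matrix (Fin (b + d)) (Fin (b + d)) ℤ))
    (hB : B * Bᵀ = (b : ℤ) • (1 : Matrix (Fin b) (Fin b) ℤ)) {j j' : Fin (b + d) ⊕ Fin b}
    (hj : j ≠ j') : |((MM hdb A B)ᵀ * MM hdb A B) j j'| ≤ d := by
  have hA' := col_orth hA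
  have hB' := col_orth hB
  rw [Matrix.mul_apply]
  simp only [Matrix.transpose_apply]
  rw [sum_RI]
  rcases j with j | j <;> rcases j' with j' | j'
  · have hne : j ≠ j' := fun h => hj (by rw [h])
    have h1 := congrFun (congrFun hA' j) j'
    rw [Matrix.mul_apply] at h1
    simp only [Matrix.transpose_apply, Matrix.smul_apply, smul_eq_mul, Matrix.one_apply,
      if_neg hne, mul_zero] at h1
    rw [Fin.sum_univ_add] at h1
    simp only [MM, Matrix.of_apply, Sum.elim_inl, rowA]
    have h2 : ∑ k : Fin b, (A (Fin.castAdd d k) j * A (Fin.castAdd d k) j' +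
        A (Fin.castAdd d k) j * A (Fin.castAdd d k) j') =
        2 * ∑ k : Fin b, A (Fin.castAdd d k) j * A (Fin.castAdd d k) j' := by
      rw [Finset.mul_sum]; exact Finset.sum_congr rfl fun _ _ => by ring
    rw [h2]
    have h3 : 2 * ∑ k : Fin b, A (Fin.castAdd d k) j * A (Fin.castAdd d k) j' +
        ∑ i : Fin d, A (Fin.natAdd b i) j * A (Fin.natAdd b i) j' =
        - ∑ i : Fin d, A (Fin.natAdd b i) j * A (Fin.natAdd b i) j' := by linarith
    rw [h3, abs_neg]
    exact abs_sum_le _ fun i => abs_mul_sign (hA1 _ _) (hA1 _ _)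
  · simp only [MM, Matrix.of_apply, Sum.elim_inl, Sum.elim_inr, rowA, rowB, sgT, sgF, sgR]
    have h2 : ∑ k : Fin b, (A (Fin.castAdd d k) j * (1 * B k j') +
        A (Fin.castAdd d k) j * (-1 * B k j')) = 0 :=
      Finset.sum_eq_zero fun k _ => by ring
    rw [h2, zero_add]
    refine abs_sum_le _ fun i => ?_
    rw [one_mul]
    exact abs_mul_sign (hA1 _ _) (hB1 _ _)
  · simp only [MM, Matrix.of_apply, Sum.elim_inl, Sum.elim_inr, rowA, rowB, sgT, sgF, sgR]
    have h2 : ∑ k : Fin b, ((1 * B k j) * A (Fin.castAdd d k) j' +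
        (-1 * B k j) * A (Fin.castAdd d k) j') = 0 :=
      Finset.sum_eq_zero fun k _ => by ring
    rw [h2, zero_add]
    refine abs_sum_le _ fun i => ?_
    rw [one_mul]
    exact abs_mul_sign (hB1 _ _) (hA1 _ _)
  · have hne : j ≠ j' := fun h => hj (by rw [h])
    have h1 := congrFun (congrFun hB' j) j'
    rw [Matrix.mul_apply] at h1
    simp only [Matrix.transpose_apply, Matrix.smul_apply, smul_eq_mul, Matrix.one_apply,
      if_neg hne, mul_zero] at h1
    simp only [MM, Matrix.of_apply, Sum.elim_inr, rowB, sgT, sgF, sgR]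
    have h2 : ∑ k : Fin b, (1 * B k j * (1 * B k j') + -1 * B k j * (-1 * B k j')) =
        2 * ∑ k : Fin b, B k j * B k j' := by
      rw [Finset.mul_sum]
      exact Finset.sum_congr rfl fun _ _ => by ring
    rw [h2, h1, mul_zero, zero_add]
    refine abs_sum_le _ fun i => ?_
    rw [one_mul, one_mul]
    exact abs_mul_sign (hB1 _ _) (hB1 _ _)

include hdb in
/-- transport to `Fin n` -/
theorem near (hA1 : ∀ i j, A i j = 1 ∨ A i j = -1) (hB1 : ∀ i j, B i j = 1 ∨ B i j = -1)
    (hA : A * Aᵀ = ((b + d : ℕ) : ℤ) • (1 : Matrix (Fin (b + d)) (Fin (b + d)) ℤ))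
    (hB : B * Bᵀ = (b : ℤ) • (1 : Matrix (Fin b) (Fin b) ℤ)) {n : ℕ} (hn : b + d + b = n) :
    ∃ (H : Matrix (Fin n) (Fin n) ℤ) (S : Finset (Fin n)), (∀ i j, H i j = 1 ∨ H i j = -1) ∧
      (∀ i, {j | j ≠ i ∧ (H * Hᵀ) i j ≠ 0}.ncard ≤ 2) ∧
      (∀ i j, i ≠ j → 2 * |(H * Hᵀ) i j| ≤ n) ∧
      S.card ≤ 3 * d ∧
      (∀ i ∉ S, ∃ i', i' ≠ i ∧ (H * Hᵀ) i i' = d ∧
        ∀ j, j ≠ i → j ≠ i' → (H * Hᵀ) i j = 0) ∧
      (∀ i j, i ≠ j → |(Hᵀ * H) i j| ≤ d) := by
  classical
  have hc1 : Fintype.card (RI b d) = n := by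
    simp [RI, Fintype.card_sum, Fintype.card_prod]
    omega
  have hc2 : Fintype.card (Fin (b + d) ⊕ Fin b) = n := by
    simp [Fintype.card_sum]
    omega
  let e : RI b d ≃ Fin n := Fintype.equivFinOfCardEq hc1
  let f : (Fin (b + d) ⊕ Fin b) ≃ Fin n := Fintype.equivFinOfCardEq hc2
  set M := MM hdb A B with hM
  have hG : (M.submatrix e.symm f.symm) * (M.submatrix e.symm f.symm)ᵀ =
      (M * Mᵀ).submatrix e.symm e.symm := by
    rw [Matrix.transpose_submatrix, Matrix.submatrix_mul_equiv]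
  have hC : (M.submatrix e.symm f.symm)ᵀ * (M.submatrix e.symm f.symm) =
      (Mᵀ * M).submatrix f.symm f.symm := by
    rw [Matrix.transpose_submatrix, Matrix.submatrix_mul_equiv]
  refine ⟨M.submatrix e.symm f.symm, (exc hdb : Finset (RI b d)).map e.toEmbedding,
    fun i j => MM_sign hdb hA1 hB1 _ _, ?_, ?_, ?_, ?_, ?_⟩
  · intro i
    rw [hG]
    have hsub : {j | j ≠ i ∧ ((M * Mᵀ).submatrix e.symm e.symm) i j ≠ 0} ⊆
        ((univ.filter fun y => y ≠ e.symm i ∧ rowB hdb y = rowB hdb (e.symm i)).map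
          e.toEmbedding : Finset (Fin n)) := by
      intro j hj
      obtain ⟨h1, h2⟩ := hj
      simp only [coe_map, Set.mem_image, mem_coe, mem_filter, mem_univ, true_and]
      refine ⟨e.symm j, ⟨fun h => h1 (e.symm.injective h), ?_⟩, by simp⟩
      by_contra hne
      exact h2 (gram_zero hdb hA hB (fun h => hne h.symm))
    refine (Set.ncard_le_ncard hsub (Finset.finite_toSet _)).trans ?_
    rw [Set.ncard_coe_finset, Finset.card_map]
    exact card_fiber hdb _
  · intro i j hij
    rw [hG]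
    have h1 := gram_half hdb hA hB (x := e.symm i) (y := e.symm j)
      (fun h => hij (e.symm.injective h))
    have h2 : (((b + d + b : ℕ) : ℤ)) = (n : ℤ) := by rw [hn]
    rw [h2] at h1
    exact h1
  · rw [Finset.card_map]
    exact card_exc hdb
  · intro i hi
    have hi' : e.symm i ∉ (exc hdb : Finset (RI b d)) := by
      intro h
      apply hi
      rw [Finset.mem_map]
      exact ⟨_, h, by simp⟩
    obtain ⟨x', h0, h1, h2⟩ := gram_good hdb hA hB hi'
    rw [hG]
    refine ⟨e x', fun h => h0 (by rw [← h]; simp), ?_, ?_⟩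
    · simpa using h1
    · intro j hj hj'
      exact h2 (e.symm j) (fun h => hj (e.symm.injective h))
        (fun h => hj' (by rw [← h]; simp))
  · intro i j hij
    rw [hC]
    exact col_bound hdb hA1 hB1 hA hB (fun h => hij (f.symm.injective h))

end

end Pool.Agent.H627R5
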